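import Mathlib
import Pool.Agent.TH931.LP.Stm

/-!
# The cube as a frame
-/

set_option autoImplicit false

open MeasureTheory Set
open scoped ENNReal Matrix

noncomputable section

namespace Pool.Agent.TH541.LP931

open Pool.Agent.TH931.LP

variable {c : ℕ}

theorem sb_abs (s : Bool) : |sb s| = 1 := by
  cases s <;> simp [sb]

theorem sb_sq (s : Bool) : sb s * sb s = 1 := by
  cases s <;> simp [sb]

theorem sb_mul_le (s t : Bool) : sb s * sb t ≤ 1 := by
  cases s <;> cases t <;> simp [sb]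

theorem sb_mul_ne {s t : Bool} (h : s ≠ t) : sb s * sb t = -1 := by
  cases s <;> cases t <;> simp_all [sb]

theorem sb_decide (x : ℝ) : sb (decide (0 ≤ x)) * x = |x| := by
  by_cases h : 0 ≤ x
  · simp [sb, h, abs_of_nonneg h]
  · simp [sb, h, abs_of_neg (not_le.1 h)]

theorem sb_mul_le_abs (s : Bool) (x : ℝ) : sb s * x ≤ |x| := by
  have h := le_abs_self (sb s * x)
  rwa [abs_mul, sb_abs, one_mul] at h

/-- the normals of the facets -/
theorem cube_u (a : Fin (c + 1) × Bool) (x : Fin (c + 1) → ℝ) :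
    (cubeF c).u a ⬝ᵥ x = sb a.2 * x a.1 := by
  show ∑ j, (if j = a.1 then sb a.2 else 0) * x j = _
  rw [Finset.sum_eq_single a.1]
  · rw [if_pos rfl]
  · intro j _ hj
    rw [if_neg hj, zero_mul]
  · intro h
    exact absurd (Finset.mem_univ _) h

theorem cube_v (e : Fin (c + 1) → Bool) (x : Fin (c + 1) → ℝ) :
    (cubeF c).v e ⬝ᵥ x = ∑ j, sb (e j) * x j := rfl

theorem cube_uv (a : Fin (c + 1) × Bool) (e : Fin (c + 1) → Bool) :
    (cubeF c).u a ⬝ᵥ (cubeF c).v e = sb a.2 * sb (e a.1) := cube_u a _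

theorem imax_mem (x : Fin (c + 1) → ℝ) : ∀ j, |x j| ≤ |x (imax x)| := by
  have h := Finset.min'_mem (Finset.univ.filter fun i => ∀ j, |x j| ≤ |x i|)
    (by
      obtain ⟨i, -, hi⟩ := Finset.exists_max_image (Finset.univ : Finset (Fin (c + 1)))
        (fun i => |x i|) Finset.univ_nonempty
      exact ⟨i, by simpa using fun j => hi j (Finset.mem_univ j)⟩)
  exact (Finset.mem_filter.1 h).2

theorem imax_le {x : Fin (c + 1) → ℝ} {i : Fin (c + 1)} (h : ∀ j, |x j| ≤ |x i|) :
    imax x ≤ i :=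
  Finset.min'_le _ _ (Finset.mem_filter.2 ⟨Finset.mem_univ _, h⟩)

theorem imax_eq_iff (x : Fin (c + 1) → ℝ) (i : Fin (c + 1)) :
    imax x = i ↔ (∀ j, |x j| ≤ |x i|) ∧ ∀ k, k < i → ¬ ∀ j, |x j| ≤ |x k| := by
  constructor
  · rintro rfl
    exact ⟨imax_mem x, fun k hk h => absurd (imax_le h) (not_le.2 hk)⟩
  · rintro ⟨h1, h2⟩
    refine le_antisymm (imax_le h1) ?_
    by_contra hcon
    exact h2 _ (not_le.1 hcon) (imax_mem x)

theorem abs_imax (x : Fin (c + 1) → ℝ) : |x (imax x)| = ‖x‖ := by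
  refine le_antisymm (by rw [← Real.norm_eq_abs]; exact norm_le_pi_norm x _) ?_
  rw [pi_norm_le_iff_of_nonneg (abs_nonneg _)]
  intro j
  rw [Real.norm_eq_abs]
  exact imax_mem x j

/-- the index of the largest coordinate depends on the absolute values only -/
theorem imax_congr {x y : Fin (c + 1) → ℝ} (h : ∀ i j, |x i| ≤ |x j| ↔ |y i| ≤ |y j|) :
    imax x = imax y := by
  rw [imax_eq_iff]
  constructor
  · intro j
    exact (h j _).2 (imax_mem y j)
  · intro k hk h1
    exact absurd (imax_le (x := y) fun j => (h j k).1 (h1 j)) (not_le.2 hk)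

theorem imax_smul {t : ℝ} (ht : 0 < t) (x : Fin (c + 1) → ℝ) : imax (t • x) = imax x := by
  refine imax_congr fun i j => ?_
  simp only [Pi.smul_apply, smul_eq_mul, abs_mul, abs_of_pos ht]
  exact mul_le_mul_iff_right₀ ht

theorem decide_smul {t : ℝ} (ht : 0 < t) (x : ℝ) : decide (0 ≤ t * x) = decide (0 ≤ x) := by
  rw [decide_eq_decide]
  exact mul_nonneg_iff_of_pos_left ht

theorem meas_imax (i : Fin (c + 1)) : MeasurableSet {x : Fin (c + 1) → ℝ | imax x = i} := by
  have h : {x : Fin (c + 1) → ℝ | imax x = i} =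
      (⋂ j, {x | |x j| ≤ |x i|}) ∩ ⋂ k, {x | k < i → ¬ ∀ j, |x j| ≤ |x k|} := by
    ext x
    simp only [mem_ofPred_eq, mem_inter_iff, mem_iInter]
    exact imax_eq_iff x i
  have hle : ∀ j k : Fin (c + 1), MeasurableSet {x : Fin (c + 1) → ℝ | |x j| ≤ |x k|} :=
    fun j k => measurableSet_le (by fun_prop) (by fun_prop)
  rw [h]
  refine (MeasurableSet.iInter fun j => hle j i).inter (MeasurableSet.iInter fun k => ?_)
  by_cases hk : k < i
  · have h2 : {x : Fin (c + 1) → ℝ | k < i → ¬ ∀ j, |x j| ≤ |x k|} =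
        (⋂ j, {x | |x j| ≤ |x k|})ᶜ := by
      ext x
      simp only [mem_ofPred_eq, mem_compl_iff, mem_iInter]
      exact ⟨fun h => h hk, fun h _ => h⟩
    rw [h2]
    exact (MeasurableSet.iInter fun j => hle j k).compl
  · have h2 : {x : Fin (c + 1) → ℝ | k < i → ¬ ∀ j, |x j| ≤ |x k|} = univ := by
      ext x
      simp only [mem_ofPred_eq, mem_univ, iff_true]
      exact fun h => absurd h hk
    rw [h2]
    exact MeasurableSet.univ

theorem meas_sign (i : Fin (c + 1)) (s : Bool) :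
    MeasurableSet {x : Fin (c + 1) → ℝ | decide (0 ≤ x i) = s} := by
  have h0 : MeasurableSet {x : Fin (c + 1) → ℝ | 0 ≤ x i} :=
    measurableSet_le measurable_const (measurable_pi_apply i)
  cases s
  · have h : {x : Fin (c + 1) → ℝ | decide (0 ≤ x i) = false} = {x | 0 ≤ x i}ᶜ := by
      ext x; simp
    rw [h]
    exact h0.compl
  · have h : {x : Fin (c + 1) → ℝ | decide (0 ≤ x i) = true} = {x | 0 ≤ x i} := by
      ext x; simp
    rw [h]
    exact h0

theorem half_cube : Half (cubeF c) where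
  le a x := by
    rw [cube_u]
    refine (sb_mul_le_abs _ _).trans ?_
    rw [← Real.norm_eq_abs]
    exact norm_le_pi_norm x _
  eq x := by
    rw [cube_u]
    show sb (decide (0 ≤ x (imax x))) * x (imax x) = ‖x‖
    rw [sb_decide, abs_imax]
  smul t ht x := by
    show (imax (t • x), decide (0 ≤ (t • x) (imax (t • x)))) = (imax x, decide (0 ≤ x (imax x)))
    rw [imax_smul ht, Pi.smul_apply, smul_eq_mul, decide_smul ht]
  meas a := by
    have h : {x : Fin (c + 1) → ℝ | (cubeF c).ft x = a} =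
        {x | imax x = a.1} ∩ {x | decide (0 ≤ x a.1) = a.2} := by
      ext x
      show (imax x, decide (0 ≤ x (imax x))) = a ↔ _
      rw [Prod.ext_iff]
      constructor
      · rintro ⟨h1, h2⟩
        refine ⟨h1, ?_⟩
        show decide (0 ≤ x a.1) = a.2
        rw [← h2, ← h1]
      · rintro ⟨h1, h2⟩
        refine ⟨h1, ?_⟩
        have h1' : imax x = a.1 := h1
        show decide (0 ≤ x (imax x)) = a.2
        rw [h1']
        exact h2
    rw [h]
    exact (meas_imax a.1).inter (meas_sign a.1 a.2)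
  pos x hx := norm_pos_iff.2 hx
  neg x := norm_neg x
  hit a := ⟨fun _ => a.2, by rw [cube_uv]; exact sb_sq _⟩
  strict a a' h := by
    by_cases h1 : a.1 = a'.1
    · have h2 : a.2 ≠ a'.2 := fun h2 => h (Prod.ext h1 h2)
      refine ⟨fun _ => a.2, by rw [cube_uv]; exact sb_sq _, ?_⟩
      rw [cube_uv]
      show sb a'.2 * sb a.2 < 1
      rw [sb_mul_ne h2.symm]
      norm_num
    · refine ⟨fun j => if j = a.1 then a.2 else !a'.2, ?_, ?_⟩
      · rw [cube_uv]
        show sb a.2 * sb (if a.1 = a.1 then a.2 else !a'.2) = 1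
        rw [if_pos rfl]
        exact sb_sq _
      · rw [cube_uv]
        show sb a'.2 * sb (if a'.1 = a.1 then a.2 else !a'.2) < 1
        rw [if_neg (fun h2 => h1 h2.symm), sb_mul_ne (by cases a'.2 <;> simp)]
        norm_num

theorem half_cube_dual : Half (cubeF c).dual where
  le e x := by
    show (cubeF c).v e ⬝ᵥ x ≤ ∑ i, |x i|
    rw [cube_v]
    exact Finset.sum_le_sum fun j _ => sb_mul_le_abs _ _
  eq x := by
    show (cubeF c).v (fun i => decide (0 ≤ x i)) ⬝ᵥ x = ∑ i, |x i|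
    rw [cube_v]
    exact Finset.sum_congr rfl fun j _ => sb_decide _
  smul t ht x := by
    show (fun i => decide (0 ≤ (t • x) i)) = fun i => decide (0 ≤ x i)
    funext i
    rw [Pi.smul_apply, smul_eq_mul, decide_smul ht]
  meas e := by
    have h : {x : Fin (c + 1) → ℝ | (cubeF c).dual.ft x = e} =
        ⋂ i, {x | decide (0 ≤ x i) = e i} := by
      ext x
      show (fun i => decide (0 ≤ x i)) = e ↔ _
      rw [mem_iInter, funext_iff]
      rfl
    rw [h]
    exact MeasurableSet.iInter fun i => meas_sign i _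
  pos x hx := by
    show 0 < ∑ i, |x i|
    obtain ⟨i, hi⟩ : ∃ i, x i ≠ 0 := by
      by_contra hcon
      push Not at hcon
      exact hx (funext hcon)
    exact Finset.sum_pos' (fun j _ => abs_nonneg _) ⟨i, Finset.mem_univ _, abs_pos.2 hi⟩
  neg x := by
    show ∑ i, |(-x) i| = ∑ i, |x i|
    exact Finset.sum_congr rfl fun i _ => by rw [Pi.neg_apply, abs_neg]
  hit e := ⟨(0, e 0), by
    show (cubeF c).v e ⬝ᵥ (cubeF c).u (0, e 0) = 1
    rw [dotProduct_comm, cube_uv]
    exact sb_sq _⟩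
  strict e e' h := by
    obtain ⟨i, hi⟩ : ∃ i, e i ≠ e' i := by
      by_contra hcon
      push Not at hcon
      exact h (funext hcon)
    refine ⟨(i, e i), ?_, ?_⟩
    · show (cubeF c).v e ⬝ᵥ (cubeF c).u (i, e i) = 1
      rw [dotProduct_comm, cube_uv]
      exact sb_sq _
    · show (cubeF c).v e' ⬝ᵥ (cubeF c).u (i, e i) < 1
      rw [dotProduct_comm, cube_uv]
      show sb (e i) * sb (e' i) < 1
      rw [sb_mul_ne hi]
      norm_num

theorem body_cube : (cubeF c).body = Icc (-1) 1 := by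
  ext x
  show ‖x‖ ≤ 1 ↔ _
  rw [pi_norm_le_iff_of_nonneg zero_le_one, mem_Icc, Pi.le_def, Pi.le_def, ← forall_and]
  refine forall_congr' fun i => ?_
  rw [Real.norm_eq_abs, abs_le]
  rfl

theorem vol_body : volume (cubeF c).body = 2 ^ (c + 1) := by
  rw [body_cube, Real.volume_Icc_pi]
  simp only [Pi.one_apply, Pi.neg_apply]
  rw [Finset.prod_const, Finset.card_univ, Fintype.card_fin]
  norm_num

theorem vol_pol : volume (cubeF c).pol = ENNReal.ofReal (2 ^ (c + 1) / (c + 1).factorial) := by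
  have h := volume_sum_rpow_le (Fin (c + 1)) (p := 1) le_rfl 1
  have h2 : {x : Fin (c + 1) → ℝ | (∑ i, |x i| ^ (1 : ℝ)) ^ (1 / (1 : ℝ)) ≤ 1} = (cubeF c).pol := by
    ext x
    show (∑ i, |x i| ^ (1 : ℝ)) ^ (1 / (1 : ℝ)) ≤ 1 ↔ ∑ i, |x i| ≤ 1
    rw [div_one, Real.rpow_one]
    simp only [Real.rpow_one]
  rw [h2] at h
  rw [h, ENNReal.ofReal_one, one_pow, one_mul, Fintype.card_fin]
  congr 1
  have h3 : (1 : ℝ) / 1 + 1 = 2 := by norm_num
  have h4 : ((c + 1 : ℕ) : ℝ) / 1 + 1 = ((c + 1 : ℕ) : ℝ) + 1 := by rw [div_one]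
  rw [h3, h4, Real.Gamma_nat_eq_factorial, Real.Gamma_two, mul_one]

theorem good_cube : Good (cubeF c) where
  n_pos := Nat.succ_pos c
  half := half_cube
  dhalf := half_cube_dual
  le_one a e := by
    rw [cube_uv]
    exact sb_mul_le _ _
  vol := by
    unfold Measure.real
    rw [vol_body, vol_pol, ENNReal.toReal_ofReal (by positivity), ENNReal.toReal_pow]
    rw [← mul_div_assoc, ← mul_pow]
    norm_num

end Pool.Agent.TH541.LP931
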