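import Mathlib
import Pool.Agent.TH541.LP931.GCubeA

/-!
# The kernels of the cube
-/

set_option autoImplicit false

open MeasureTheory Set
open scoped ENNReal Matrix

noncomputable section

namespace Pool.Agent.TH541.LP931

open Pool.Agent.TH931.LP

variable {c : ℕ}

/-! ### symmetrization -/

theorem sb_mp (s : Bool) : MeasurePreserving (fun x : ℝ => sb s * x) volume volume := by
  cases s
  · have h : (fun x : ℝ => sb false * x) = Neg.neg := by
      funext x
      simp [sb]
    rw [h]
    exact Measure.measurePreserving_neg volume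
  · have h : (fun x : ℝ => sb true * x) = id := by
      funext x
      simp [sb]
    rw [h]
    exact MeasurePreserving.id volume

theorem flip_mp {n : ℕ} (t : Fin n → Bool) :
    MeasurePreserving (fun (x : Fin n → ℝ) j => sb (t j) * x j) volume volume :=
  volume_preserving_pi (f := fun j (x : ℝ) => sb (t j) * x) fun j => sb_mp (t j)

theorem perm_mp {n : ℕ} (σ : Equiv.Perm (Fin n)) :
    MeasurePreserving (fun (x : Fin n → ℝ) j => x (σ j)) volume volume := by
  have h := volume_measurePreserving_piCongrLeft (fun _ : Fin n => ℝ) σ.symm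
  have h2 : (⇑(MeasurableEquiv.piCongrLeft (fun _ : Fin n => ℝ) σ.symm) :
      (Fin n → ℝ) → (Fin n → ℝ)) = fun (x : Fin n → ℝ) j => x (σ j) := by
    funext x j
    have h3 := MeasurableEquiv.piCongrLeft_apply_apply (β := fun _ : Fin n => ℝ) σ.symm x (σ j)
    rwa [Equiv.symm_apply_apply] at h3
  rwa [h2] at h

theorem act_mp {n : ℕ} (t : Fin n → Bool) (σ : Equiv.Perm (Fin n)) :
    MeasurePreserving (fun (x : Fin n → ℝ) j => sb (t j) * x (σ j)) volume volume :=
  (flip_mp t).comp (perm_mp σ)

theorem symm_lint {n : ℕ} (i : Fin n) (f : (Fin n → ℝ) → ℝ≥0∞) (hf : Measurable f) :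
    ∫⁻ x : Fin n → ℝ, ∑ t : Fin n → Bool, ∑ k : Fin n,
      f (fun j => sb (t j) * x (Equiv.swap i k j)) =
      2 ^ n * n * ∫⁻ x, f x := by
  have hm : ∀ (t : Fin n → Bool) (k : Fin n),
      Measurable fun x : Fin n → ℝ => f (fun j => sb (t j) * x (Equiv.swap i k j)) :=
    fun t k => hf.comp (act_mp t _).measurable
  rw [lintegral_finsetSum _ fun t _ => Finset.measurable_sum _ fun k _ => hm t k]
  have h : ∀ t : Fin n → Bool,
      ∫⁻ x : Fin n → ℝ, ∑ k : Fin n, f (fun j => sb (t j) * x (Equiv.swap i k j)) =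
        n * ∫⁻ x, f x := by
    intro t
    rw [lintegral_finsetSum _ fun k _ => hm t k]
    rw [Finset.sum_congr rfl fun k _ => (act_mp t (Equiv.swap i k)).lintegral_comp hf]
    rw [Finset.sum_const, Finset.card_univ, Fintype.card_fin, nsmul_eq_mul]
  rw [Finset.sum_congr rfl fun t _ => h t, Finset.sum_const, Finset.card_univ, Fintype.card_fun,
    Fintype.card_bool, Fintype.card_fin, nsmul_eq_mul, mul_assoc]
  push_cast
  rfl

/-! ### radial integration -/

theorem rad_one (h2 : S_rad) (h3 : S_beta) {n : ℕ} (hn : 0 < n) {h : (Fin n → ℝ) → ℝ}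
    (hm : Measurable h) (h0 : ∀ y, 0 ≤ h y) (hs : ∀ t : ℝ, 0 < t → ∀ y, h (t • y) = t * h y)
    (hv : volume {y | h y ≤ 1} ≠ ∞) :
    ∫⁻ y in {y | h y ≤ 1}, ENNReal.ofReal (h y) =
      ENNReal.ofReal ((n : ℝ) / (n + 1)) * volume {y | h y ≤ 1} := by
  have hE : MeasurableSet {y | h y ≤ 1} := measurableSet_le hm measurable_const
  have key := h2 n h hn hm h0 hs hv (fun _ => 1) measurable_const (fun _ _ _ => rfl)
    ((Iic (1 : ℝ)).indicator fun r => ENNReal.ofReal r)
    (ENNReal.measurable_ofReal.indicator measurableSet_Iic)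
  have e1 : ∫⁻ y, (Iic (1 : ℝ)).indicator (fun r => ENNReal.ofReal r) (h y) * 1 =
      ∫⁻ y in {y | h y ≤ 1}, ENNReal.ofReal (h y) := by
    rw [← lintegral_indicator hE]
    refine lintegral_congr fun y => ?_
    rw [mul_one]
    by_cases hy : h y ≤ 1
    · rw [indicator_of_mem (show h y ∈ Iic (1 : ℝ) from hy),
        indicator_of_mem (show y ∈ {y | h y ≤ 1} from hy)]
    · rw [indicator_of_notMem (show h y ∉ Iic (1 : ℝ) from hy),
        indicator_of_notMem (show y ∉ {y | h y ≤ 1} from hy)]
  have e2 : ∫⁻ r in Ioi (0 : ℝ), ENNReal.ofReal (n * r ^ (n - 1)) *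
      (Iic (1 : ℝ)).indicator (fun r => ENNReal.ofReal r) r = ENNReal.ofReal ((n : ℝ) / (n + 1)) := by
    have e3 : ∀ r : ℝ, ENNReal.ofReal (n * r ^ (n - 1)) *
        (Iic (1 : ℝ)).indicator (fun r => ENNReal.ofReal r) r =
        (Iic (1 : ℝ)).indicator (fun r => ENNReal.ofReal (n * r ^ (n - 1)) * ENNReal.ofReal r) r := by
      intro r
      by_cases hr : r ∈ Iic (1 : ℝ)
      · rw [indicator_of_mem hr, indicator_of_mem hr]
      · rw [indicator_of_notMem hr, indicator_of_notMem hr, mul_zero]
    rw [lintegral_congr e3, lintegral_indicator measurableSet_Iic,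
      Measure.restrict_restrict measurableSet_Iic, inter_comm, Ioi_inter_Iic]
    have e4 := (h3 (n + 1) 0 (by omega)).1
    have e5 : ∫⁻ r in Ioc (0 : ℝ) 1, ENNReal.ofReal (n * r ^ (n - 1)) * ENNReal.ofReal r =
        ∫⁻ r in Ioc (0 : ℝ) 1, ENNReal.ofReal ((n : ℝ) / (n + 1)) *
          ENNReal.ofReal (((n + 1 : ℕ) : ℝ) * r ^ (n + 1 - 1) * (1 - r) ^ 0) := by
      refine setLIntegral_congr_fun measurableSet_Ioc fun r hr => ?_
      have hr0 : 0 < r := hr.1
      show ENNReal.ofReal (n * r ^ (n - 1)) * ENNReal.ofReal r = ENNReal.ofReal ((n : ℝ) / (n + 1)) *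
          ENNReal.ofReal (((n + 1 : ℕ) : ℝ) * r ^ (n + 1 - 1) * (1 - r) ^ 0)
      rw [← ENNReal.ofReal_mul (by positivity), ← ENNReal.ofReal_mul (by positivity)]
      congr 1
      have hr2 : r ^ (n - 1) * r = r ^ n := by
        rw [← pow_succ]
        congr 1
        omega
      rw [mul_assoc, hr2, Nat.add_sub_cancel, pow_zero, mul_one]
      push_cast
      field_simp
    rw [e5, lintegral_const_mul _ (by fun_prop), e4]
    have e6 : (((n + 1).factorial : ℝ) * (Nat.factorial 0 : ℝ) / ((n + 1 + 0).factorial : ℝ)) = 1 := by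
      rw [Nat.factorial_zero, add_zero, Nat.cast_one, mul_one, div_self]
      exact Nat.cast_ne_zero.2 (Nat.factorial_ne_zero _)
    rw [e6, ENNReal.ofReal_one, mul_one]
  rw [e1, e2, setLIntegral_one] at key
  exact key

/-! ### the kernel -/

theorem muC_meas (a : Fin (c + 1) × Bool) : Measurable fun y => muC c y a := by
  unfold muC
  exact Measurable.ite (meas_sign a.1 a.2) (by fun_prop) measurable_const

theorem muC_sum (y : Fin (c + 1) → ℝ) (i : Fin (c + 1)) :
    muC c y (i, true) - muC c y (i, false) = y i := by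
  unfold muC
  by_cases h : 0 ≤ y i
  · simp [h]
  · simp [h, abs_of_neg (not_le.1 h)]

/-- one flip -/
theorem one_flip {n : ℕ} (b : Fin n → Bool) (x : Fin n → ℝ) (hx : ∀ j, x j ≠ 0) :
    ∃ t0 : Fin n → Bool, ∀ t : Fin n → Bool,
      (fun j => decide (0 ≤ sb (t j) * x j)) = b ↔ t = t0 := by
  refine ⟨fun j => decide (b j = decide (0 ≤ x j)), fun t => ?_⟩
  rw [funext_iff, funext_iff]
  refine forall_congr' fun j => ?_
  have h1 : ∀ s b : Bool, decide (0 ≤ sb s * x j) = b ↔ s = decide (b = decide (0 ≤ x j)) := by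
    intro s b
    rcases lt_or_gt_of_ne (hx j) with h | h
    · have h2 : ¬ 0 ≤ x j := not_le.2 h
      have h3 : 0 ≤ -x j := by linarith
      cases s <;> cases b <;> simp [sb, h2, h3]
    · have h2 : 0 ≤ x j := h.le
      have h3 : ¬ 0 ≤ -x j := by linarith
      cases s <;> cases b <;> simp [sb, h2, h3]
  exact h1 _ _

theorem solve {n : ℕ} (hn : 0 < n) {L V : ℝ≥0∞}
    (h : 2 ^ n * n * L = ENNReal.ofReal ((n : ℝ) / (n + 1)) * V) (al : ℝ)
    (hal : al = 1 / (n * 2 ^ n)) : L = ENNReal.ofReal ((n : ℝ) / (n + 1) * al) * V := by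
  have hn' : (0 : ℝ) < n := Nat.cast_pos.2 hn
  have hK0 : (2 ^ n * n : ℝ≥0∞) ≠ 0 := by
    refine mul_ne_zero (pow_ne_zero _ (by norm_num)) ?_
    exact_mod_cast hn.ne'
  have hKt : (2 ^ n * n : ℝ≥0∞) ≠ ∞ :=
    ENNReal.mul_ne_top (ENNReal.pow_ne_top (by norm_num)) (ENNReal.natCast_ne_top n)
  have hK : (2 ^ n * n : ℝ≥0∞) = ENNReal.ofReal (2 ^ n * n) := by
    rw [ENNReal.ofReal_mul (by positivity), ENNReal.ofReal_pow (by norm_num),
      ENNReal.ofReal_natCast]
    norm_num
  rw [← ENNReal.mul_right_inj hK0 hKt, h, ← mul_assoc, hK, ← ENNReal.ofReal_mul (by positivity)]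
  congr 2
  rw [hal]
  field_simp

theorem sum_abs_act {n : ℕ} (t : Fin n → Bool) (σ : Equiv.Perm (Fin n)) (x : Fin n → ℝ) :
    ∑ j, |sb (t j) * x (σ j)| = ∑ j, |x j| := by
  rw [← Equiv.sum_comp σ fun j => |x j|]
  exact Finset.sum_congr rfl fun j _ => by rw [abs_mul, sb_abs, one_mul]

theorem norm_act {n : ℕ} (t : Fin n → Bool) (σ : Equiv.Perm (Fin n)) (x : Fin n → ℝ) :
    ‖fun j => sb (t j) * x (σ j)‖ = ‖x‖ := by
  refine le_antisymm ?_ ?_
  · rw [pi_norm_le_iff_of_nonneg (norm_nonneg _)]
    intro j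
    rw [Real.norm_eq_abs, abs_mul, sb_abs, one_mul, ← Real.norm_eq_abs]
    exact norm_le_pi_norm x _
  · rw [pi_norm_le_iff_of_nonneg (norm_nonneg _)]
    intro j
    have h := norm_le_pi_norm (fun j => sb (t j) * x (σ j)) (σ.symm j)
    rw [Real.norm_eq_abs, abs_mul, sb_abs, one_mul, Equiv.apply_symm_apply] at h
    exact h

theorem ae_ne {n : ℕ} : ∀ᵐ x : Fin n → ℝ, ∀ j, x j ≠ 0 := by
  rw [ae_all_iff]
  exact fun j => Measure.ae_eval_ne _ j 0

theorem null_hyper {n : ℕ} (j k : Fin n) (hjk : j ≠ k) (s : Bool) :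
    volume {x : Fin n → ℝ | x j = sb s * x k} = 0 := by
  have h := Measure.addHaar_submodule (volume : Measure (Fin n → ℝ))
    (LinearMap.ker (LinearMap.proj (R := ℝ) (φ := fun _ : Fin n => ℝ) j -
      sb s • LinearMap.proj (R := ℝ) (φ := fun _ : Fin n => ℝ) k)) (by
        intro htop
        have h1 : (Pi.single j (1 : ℝ) : Fin n → ℝ) ∈
            LinearMap.ker (LinearMap.proj (R := ℝ) (φ := fun _ : Fin n => ℝ) j -
      sb s • LinearMap.proj (R := ℝ) (φ := fun _ : Fin n => ℝ) k) := by
          rw [htop]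
          exact Submodule.mem_top
        rw [LinearMap.mem_ker] at h1
        simp [hjk.symm] at h1)
  refine measure_mono_null ?_ h
  intro x hx
  have hx' : x j = sb s * x k := hx
  rw [SetLike.mem_coe, LinearMap.mem_ker]
  simp [hx']

theorem ae_dist {n : ℕ} : ∀ᵐ x : Fin n → ℝ, ∀ j k, j ≠ k → |x j| ≠ |x k| := by
  rw [ae_all_iff]
  intro j
  rw [ae_all_iff]
  intro k
  by_cases hjk : j = k
  · exact Filter.Eventually.of_forall fun x h => absurd hjk h
  · have h1 := null_hyper j k hjk true
    have h2 := null_hyper j k hjk false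
    have h3 := measure_union_null h1 h2
    rw [ae_iff]
    refine measure_mono_null ?_ h3
    intro x hx
    have hx' : ¬ (j ≠ k → |x j| ≠ |x k|) := hx
    push Not at hx'
    rcases abs_eq_abs.1 hx'.2 with h | h
    · exact Or.inl (by show x j = sb true * x k; simp [sb, h])
    · exact Or.inr (by show x j = sb false * x k; simp [sb, h])

theorem mu_law (h2 : S_rad) (h3 : S_beta) (a : Fin (c + 1) × Bool) (b : Fin (c + 1) → Bool) :
    ∫⁻ y in {y | (cubeF c).h y ≤ 1 ∧ (cubeF c).vt y = b}, ENNReal.ofReal (muC c y a) =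
      ENNReal.ofReal (((c + 1 : ℕ) : ℝ) / ((c + 1 : ℕ) + 1) * alC c a b) *
        volume (cubeF c).pol := by
  have hvt : ∀ y, (cubeF c).vt y = fun i => decide (0 ≤ y i) := fun _ => rfl
  have hh : ∀ y, (cubeF c).h y = ∑ i, |y i| := fun _ => rfl
  have hmh : Measurable (cubeF c).h := by
    show Measurable fun y : Fin (c + 1) → ℝ => ∑ i, |y i|
    fun_prop
  have hS : MeasurableSet {y | (cubeF c).h y ≤ 1 ∧ (cubeF c).vt y = b} :=
    (measurableSet_le hmh measurable_const).inter ((half_cube_dual (c := c)).meas b)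
  by_cases hba : b a.1 = a.2
  · have e1 : ∫⁻ y in {y | (cubeF c).h y ≤ 1 ∧ (cubeF c).vt y = b}, ENNReal.ofReal (muC c y a) =
        ∫⁻ y in {y | (cubeF c).h y ≤ 1 ∧ (cubeF c).vt y = b}, ENNReal.ofReal |y a.1| := by
      refine setLIntegral_congr_fun hS fun y hy => ?_
      have hy2 : (fun i => decide (0 ≤ y i)) = b := hy.2
      show ENNReal.ofReal (if decide (0 ≤ y a.1) = a.2 then |y a.1| else 0) = _
      rw [if_pos (by rw [← hba, ← hy2])]
    have hf : Measurable fun y : Fin (c + 1) → ℝ => ENNReal.ofReal |y a.1| := by fun_prop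
    rw [e1, ← lintegral_indicator hS]
    refine solve (Nat.succ_pos c) ?_ _ ?_
    · rw [← symm_lint a.1 _ (hf.indicator hS)]
      have hP : MeasurableSet {y | (cubeF c).h y ≤ 1} := measurableSet_le hmh measurable_const
      have e2 : ∀ᵐ x : Fin (c + 1) → ℝ, (∑ t : Fin (c + 1) → Bool, ∑ k : Fin (c + 1),
          ({y | (cubeF c).h y ≤ 1 ∧ (cubeF c).vt y = b}.indicator
            (fun y => ENNReal.ofReal |y a.1|)) (fun j => sb (t j) * x (Equiv.swap a.1 k j))) =
          {y | (cubeF c).h y ≤ 1}.indicator (fun y => ENNReal.ofReal ((cubeF c).h y)) x := by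
        filter_upwards [ae_ne (n := c + 1)] with x hx
        rw [Finset.sum_comm]
        have e3 : ∀ k : Fin (c + 1), ∑ t : Fin (c + 1) → Bool,
            ({y | (cubeF c).h y ≤ 1 ∧ (cubeF c).vt y = b}.indicator
              (fun y => ENNReal.ofReal |y a.1|)) (fun j => sb (t j) * x (Equiv.swap a.1 k j)) =
            {y | (cubeF c).h y ≤ 1}.indicator (fun y => ENNReal.ofReal |y k|) x := by
          intro k
          obtain ⟨t0, ht0⟩ := one_flip b (fun j => x (Equiv.swap a.1 k j)) fun j => hx _
          rw [Finset.sum_eq_single t0]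
          · by_cases hxP : (cubeF c).h x ≤ 1
            · rw [indicator_of_mem, indicator_of_mem]
              · show ENNReal.ofReal |sb (t0 a.1) * x (Equiv.swap a.1 k a.1)| = _
                rw [abs_mul, sb_abs, one_mul, Equiv.swap_apply_left]
              · exact hxP
              · refine ⟨?_, (ht0 t0).2 rfl⟩
                rw [hh, sum_abs_act]
                exact hxP
            · rw [indicator_of_notMem, indicator_of_notMem]
              · exact hxP
              · rintro ⟨h, -⟩
                rw [hh, sum_abs_act] at h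
                exact hxP h
          · intro t _ ht
            refine indicator_of_notMem ?_ _
            rintro ⟨-, h⟩
            exact ht ((ht0 t).1 h)
          · intro h
            exact absurd (Finset.mem_univ _) h
        rw [Finset.sum_congr rfl fun k _ => e3 k]
        by_cases hxP : x ∈ {y | (cubeF c).h y ≤ 1}
        · simp only [indicator_of_mem hxP]
          exact (ENNReal.ofReal_sum_of_nonneg (s := Finset.univ) (f := fun i => |x i|)
            fun i _ => abs_nonneg (x i)).symm
        · simp only [indicator_of_notMem hxP, Finset.sum_const_zero]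
      rw [lintegral_congr_ae e2, lintegral_indicator hP]
      refine rad_one h2 h3 (Nat.succ_pos c) hmh (fun y => ?_) (fun t ht y => ?_) ?_
      · show 0 ≤ ∑ i, |y i|
        exact Finset.sum_nonneg fun i _ => abs_nonneg (y i)
      · show ∑ i, |(t • y) i| = t * ∑ i, |y i|
        rw [Finset.mul_sum]
        exact Finset.sum_congr rfl fun i _ => by
          rw [Pi.smul_apply, smul_eq_mul, abs_mul, abs_of_pos ht]
      · have h := vol_pol (c := c)
        have h' : volume {y | (cubeF c).h y ≤ 1} = volume (cubeF c).pol := rfl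
        rw [h', h]
        exact ENNReal.ofReal_ne_top
    · unfold alC
      rw [if_pos hba]
      push_cast
      rfl
  · have e1 : ∫⁻ y in {y | (cubeF c).h y ≤ 1 ∧ (cubeF c).vt y = b}, ENNReal.ofReal (muC c y a) =
        ∫⁻ y in {y | (cubeF c).h y ≤ 1 ∧ (cubeF c).vt y = b}, 0 := by
      refine setLIntegral_congr_fun hS fun y hy => ?_
      have hy2 : (fun i => decide (0 ≤ y i)) = b := hy.2
      show ENNReal.ofReal (if decide (0 ≤ y a.1) = a.2 then |y a.1| else 0) = 0
      rw [if_neg, ENNReal.ofReal_zero]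
      intro h
      exact hba (by rw [← hy2, ← h])
    rw [e1, lintegral_zero]
    unfold alC
    rw [if_neg hba, mul_zero, ENNReal.ofReal_zero, zero_mul]

theorem ker_mu (h2 : S_rad) (h3 : S_beta) : Ker (cubeF c) (alC c) (muC c) where
  nonneg y a := by
    unfold muC
    split_ifs
    · exact abs_nonneg _
    · exact le_rfl
  meas := muC_meas
  smul t ht y a := by
    unfold muC
    rw [Pi.smul_apply, smul_eq_mul, decide_smul ht, abs_mul, abs_of_pos ht]
    split_ifs
    · rfl
    · rw [mul_zero]
  bary y := by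
    funext j
    rw [Finset.sum_apply, Fintype.sum_prod_type]
    show ∑ i, ∑ s, muC c y (i, s) * (if j = i then sb s else 0) = y j
    rw [Finset.sum_eq_single j]
    · have h := muC_sum y j
      rw [Fintype.sum_bool]
      simp only [if_true, sb, Bool.false_eq_true, if_false]
      linarith
    · intro i _ hi
      exact Finset.sum_eq_zero fun s _ => by rw [if_neg hi.symm, mul_zero]
    · intro h
      exact absurd (Finset.mem_univ _) h
  supp y a h := by
    rw [cube_uv]
    show sb a.2 * sb (decide (0 ≤ y a.1)) = 1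
    have h1 : decide (0 ≤ y a.1) = a.2 := by
      by_contra hc
      exact h (if_neg hc)
    rw [h1]
    exact sb_sq _
  alpha a b := by
    unfold alC
    split_ifs
    · positivity
    · exact le_rfl
  law := mu_law h2 h3

/-! ### the dual kernel -/

theorem div_norm_le (x : Fin (c + 1) → ℝ) (j : Fin (c + 1)) : |x j / ‖x‖| ≤ 1 := by
  rw [abs_div, abs_norm]
  refine div_le_one_of_le₀ ?_ (norm_nonneg _)
  rw [← Real.norm_eq_abs]
  exact norm_le_pi_norm x j

theorem nu_factor (x : Fin (c + 1) → ℝ) (s : Bool) (j : Fin (c + 1)) :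
    0 ≤ (1 + sb s * (x j / ‖x‖)) / 2 := by
  have h1 : |sb s * (x j / ‖x‖)| ≤ 1 := by
    rw [abs_mul, sb_abs, one_mul]
    exact div_norm_le x j
  have h2 := (abs_le.1 h1).1
  linarith

theorem nu_nonneg (x : Fin (c + 1) → ℝ) (e : Fin (c + 1) → Bool) : 0 ≤ nuC c x e :=
  mul_nonneg (norm_nonneg _) (Finset.prod_nonneg fun _ _ => nu_factor x _ _)

theorem nu_meas (e : Fin (c + 1) → Bool) : Measurable fun x => nuC c x e := by
  unfold nuC
  refine measurable_norm.mul (Finset.measurable_prod _ fun j _ => ?_)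
  exact ((((measurable_pi_apply j).div measurable_norm).const_mul _).const_add _).div_const _

theorem nu_zero (x : Fin (c + 1) → ℝ) (e : Fin (c + 1) → Bool) {i : Fin (c + 1)} {s : Bool}
    (hi : imax x = i) (hs : decide (0 ≤ x i) = s) (he : e i ≠ s) : nuC c x e = 0 := by
  unfold nuC
  by_cases hx : ‖x‖ = 0
  · rw [hx, zero_mul]
  · rw [Finset.prod_eq_zero (Finset.mem_univ i), mul_zero]
    have h1 : sb s * x i = ‖x‖ := by
      rw [← hs, sb_decide, ← hi, abs_imax]
    have h2 : sb (e i) = - sb s := by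
      revert he
      cases e i <;> cases s <;> simp [sb]
    rw [h2, ← mul_div_assoc, neg_mul, h1, neg_div, div_self hx]
    norm_num

/-- expansion of a product over the signs -/
theorem prod_signs {n : ℕ} (g : Fin n → Bool → ℝ) :
    ∑ t : Fin n → Bool, ∏ j, g j (t j) = ∏ j, (g j true + g j false) := by
  have h := Finset.prod_univ_sum (fun _ : Fin n => (Finset.univ : Finset Bool)) g
  rw [Fintype.piFinset_univ] at h
  rw [← h]
  exact Finset.prod_congr rfl fun j _ => Fintype.sum_bool _

theorem nu_bary (x : Fin (c + 1) → ℝ) (j : Fin (c + 1)) :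
    ∑ e, nuC c x e * sb (e j) = x j := by
  have h1 : ∀ e : Fin (c + 1) → Bool, nuC c x e * sb (e j) =
      ‖x‖ * ∏ l, ((1 + sb (e l) * (x l / ‖x‖)) / 2 * (if l = j then sb (e l) else 1)) := by
    intro e
    rw [Finset.prod_mul_distrib, Finset.prod_ite_eq' Finset.univ j, if_pos (Finset.mem_univ j),
      ← mul_assoc]
    rfl
  rw [Finset.sum_congr rfl fun e _ => h1 e, ← Finset.mul_sum,
    prod_signs fun l s => (1 + sb s * (x l / ‖x‖)) / 2 * (if l = j then sb s else 1),
    Finset.prod_eq_single j]
  · rw [if_pos rfl, if_pos rfl]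
    by_cases hx : ‖x‖ = 0
    · have hx0 : x = 0 := norm_eq_zero.1 hx
      rw [hx0]
      simp
    · simp only [sb, if_true, Bool.false_eq_true, if_false]
      field_simp
      ring
  · intro l _ hl
    rw [if_neg hl, if_neg hl]
    simp only [sb, if_true, Bool.false_eq_true, if_false]
    ring
  · intro h
    exact absurd (Finset.mem_univ _) h

theorem nu_sum (x : Fin (c + 1) → ℝ) (e : Fin (c + 1) → Bool) (σ : Equiv.Perm (Fin (c + 1))) :
    ∑ t : Fin (c + 1) → Bool, nuC c (fun j => sb (t j) * x (σ j)) e = ‖x‖ := by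
  have h1 : ∀ t : Fin (c + 1) → Bool, nuC c (fun j => sb (t j) * x (σ j)) e =
      ‖x‖ * ∏ j, ((1 + sb (e j) * (sb (t j) * x (σ j) / ‖x‖)) / 2) := by
    intro t
    unfold nuC
    rw [norm_act]
  rw [Finset.sum_congr rfl fun t _ => h1 t, ← Finset.mul_sum,
    prod_signs fun j s => (1 + sb (e j) * (sb s * x (σ j) / ‖x‖)) / 2, Finset.prod_eq_one,
    mul_one]
  intro j _
  simp only [sb, if_true, Bool.false_eq_true, if_false]
  ring

theorem imax_act (x : Fin (c + 1) → ℝ) (hx : ∀ j k, j ≠ k → |x j| ≠ |x k|)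
    (t : Fin (c + 1) → Bool) (i k : Fin (c + 1)) :
    imax (fun j => sb (t j) * x (Equiv.swap i k j)) = i ↔ k = imax x := by
  have h0 := imax_mem fun j => sb (t j) * x (Equiv.swap i k j)
  set p := imax fun j => sb (t j) * x (Equiv.swap i k j) with hp
  have h1 : Equiv.swap i k p = imax x := by
    by_contra hcon
    have h2 := h0 (Equiv.swap i k (imax x))
    rw [abs_mul, abs_mul, sb_abs, sb_abs, one_mul, one_mul, Equiv.swap_apply_self] at h2
    exact hx _ _ hcon (le_antisymm (imax_mem x _) h2)
  constructor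
  · intro h
    rw [h, Equiv.swap_apply_left] at h1
    exact h1
  · intro h
    have h2 : Equiv.swap i k i = imax x := by rw [Equiv.swap_apply_left]; exact h
    exact (Equiv.swap i k).injective (h1.trans h2.symm)

theorem nu_law (h2 : S_rad) (h3 : S_beta) (e : Fin (c + 1) → Bool) (b : Fin (c + 1) × Bool) :
    ∫⁻ x in {x | (cubeF c).dual.h x ≤ 1 ∧ (cubeF c).dual.vt x = b}, ENNReal.ofReal (nuC c x e) =
      ENNReal.ofReal (((c + 1 : ℕ) : ℝ) / ((c + 1 : ℕ) + 1) * alC c b e) *
        volume (cubeF c).dual.pol := by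
  have hvt : ∀ x, (cubeF c).dual.vt x = (imax x, decide (0 ≤ x (imax x))) := fun _ => rfl
  have hh : ∀ x, (cubeF c).dual.h x = ‖x‖ := fun _ => rfl
  have hmh : Measurable (cubeF c).dual.h := by
    show Measurable fun y : Fin (c + 1) → ℝ => ‖y‖
    exact measurable_norm
  have hS : MeasurableSet {x | (cubeF c).dual.h x ≤ 1 ∧ (cubeF c).dual.vt x = b} :=
    (measurableSet_le hmh measurable_const).inter ((half_cube (c := c)).meas b)
  by_cases hba : e b.1 = b.2
  · have hf : Measurable fun x : Fin (c + 1) → ℝ => ENNReal.ofReal (nuC c x e) :=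
      (nu_meas e).ennreal_ofReal
    rw [← lintegral_indicator hS]
    refine solve (Nat.succ_pos c) ?_ _ ?_
    · rw [← symm_lint b.1 _ (hf.indicator hS)]
      have hP : MeasurableSet {x | (cubeF c).dual.h x ≤ 1} :=
        measurableSet_le hmh measurable_const
      have e2 : ∀ᵐ x : Fin (c + 1) → ℝ, (∑ t : Fin (c + 1) → Bool, ∑ k : Fin (c + 1),
          ({x | (cubeF c).dual.h x ≤ 1 ∧ (cubeF c).dual.vt x = b}.indicator
            (fun x => ENNReal.ofReal (nuC c x e)))
            (fun j => sb (t j) * x (Equiv.swap b.1 k j))) =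
          {x | (cubeF c).dual.h x ≤ 1}.indicator
            (fun x => ENNReal.ofReal ((cubeF c).dual.h x)) x := by
        filter_upwards [ae_ne (n := c + 1), ae_dist (n := c + 1)] with x hx0 hx
        have e3 : ∀ t : Fin (c + 1) → Bool, ∑ k : Fin (c + 1),
            ({x | (cubeF c).dual.h x ≤ 1 ∧ (cubeF c).dual.vt x = b}.indicator
            (fun x => ENNReal.ofReal (nuC c x e)))
            (fun j => sb (t j) * x (Equiv.swap b.1 k j)) =
            {x | (cubeF c).dual.h x ≤ 1}.indicator (fun x => ENNReal.ofReal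
              (nuC c (fun j => sb (t j) * x (Equiv.swap b.1 (imax x) j)) e)) x := by
          intro t
          rw [Finset.sum_eq_single (imax x)]
          · by_cases hxP : (cubeF c).dual.h x ≤ 1
            · rw [indicator_of_mem (show x ∈ {x | (cubeF c).dual.h x ≤ 1} from hxP)]
              have h4 := (imax_act x hx t b.1 (imax x)).2 rfl
              by_cases h5 : decide (0 ≤ (fun j => sb (t j) *
                  x (Equiv.swap b.1 (imax x) j)) b.1) = b.2
              · rw [indicator_of_mem]
                refine ⟨?_, ?_⟩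
                · rw [hh, norm_act]
                  exact hxP
                · rw [hvt, h4]
                  exact Prod.ext rfl h5
              · rw [nu_zero _ e h4 rfl (by rw [hba]; exact Ne.symm h5), ENNReal.ofReal_zero]
                refine indicator_of_notMem ?_ _
                rintro ⟨-, h6⟩
                rw [hvt, h4] at h6
                exact h5 (congrArg Prod.snd h6)
            · rw [indicator_of_notMem (show x ∉ {x | (cubeF c).dual.h x ≤ 1} from hxP),
                indicator_of_notMem]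
              rintro ⟨h, -⟩
              rw [hh, norm_act] at h
              exact hxP h
          · intro k _ hk
            refine indicator_of_notMem ?_ _
            rintro ⟨-, h⟩
            rw [hvt] at h
            exact hk ((imax_act x hx t b.1 k).1 (congrArg Prod.fst h))
          · intro h
            exact absurd (Finset.mem_univ _) h
        rw [Finset.sum_congr rfl fun t _ => e3 t]
        by_cases hxP : x ∈ {x | (cubeF c).dual.h x ≤ 1}
        · simp only [indicator_of_mem hxP]
          rw [← ENNReal.ofReal_sum_of_nonneg, nu_sum]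
          · rfl
          · intro t _
            exact nu_nonneg _ _
        · simp only [indicator_of_notMem hxP, Finset.sum_const_zero]
      rw [lintegral_congr_ae e2, lintegral_indicator hP]
      refine rad_one h2 h3 (Nat.succ_pos c) hmh (fun y => ?_) (fun t ht y => ?_) ?_
      · exact norm_nonneg y
      · show ‖t • y‖ = t * ‖y‖
        rw [norm_smul, Real.norm_eq_abs, abs_of_pos ht]
      · have h := vol_body (c := c)
        have h' : volume {y | (cubeF c).dual.h y ≤ 1} = volume (cubeF c).body := rfl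
        rw [h', h]
        exact ENNReal.pow_ne_top (by norm_num)
    · unfold alC
      rw [if_pos hba]
      push_cast
      rfl
  · have e1 : ∫⁻ x in {x | (cubeF c).dual.h x ≤ 1 ∧ (cubeF c).dual.vt x = b},
        ENNReal.ofReal (nuC c x e) =
        ∫⁻ x in {x | (cubeF c).dual.h x ≤ 1 ∧ (cubeF c).dual.vt x = b}, 0 := by
      refine setLIntegral_congr_fun hS fun x hx => ?_
      have hx2 : (imax x, decide (0 ≤ x (imax x))) = b := hx.2
      show ENNReal.ofReal (nuC c x e) = 0
      rw [nu_zero x e (i := b.1) (s := b.2) (by rw [← hx2]) (by rw [← hx2]) hba,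
        ENNReal.ofReal_zero]
    rw [e1, lintegral_zero]
    unfold alC
    rw [if_neg hba, mul_zero, ENNReal.ofReal_zero, zero_mul]

theorem ker_nu (h2 : S_rad) (h3 : S_beta) :
    Ker (cubeF c).dual (fun b a => alC c a b) (nuC c) where
  nonneg x e := nu_nonneg x e
  meas := nu_meas
  smul t ht x e := by
    unfold nuC
    have h : ‖t • x‖ = t * ‖x‖ := by rw [norm_smul, Real.norm_eq_abs, abs_of_pos ht]
    rw [h, mul_assoc]
    congr 2
    refine Finset.prod_congr rfl fun j _ => ?_
    rw [Pi.smul_apply, smul_eq_mul, mul_div_mul_left _ _ ht.ne']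
  bary x := by
    funext j
    rw [Finset.sum_apply]
    exact nu_bary x j
  supp x e h := by
    show (cubeF c).v e ⬝ᵥ (cubeF c).u ((cubeF c).ft x) = 1
    rw [dotProduct_comm, cube_uv]
    show sb (decide (0 ≤ x (imax x))) * sb (e (imax x)) = 1
    have h1 : e (imax x) = decide (0 ≤ x (imax x)) := by
      by_contra hc
      exact h (nu_zero x e rfl rfl hc)
    rw [h1]
    exact sb_sq _
  alpha e a := by
    show 0 ≤ alC c a e
    unfold alC
    split_ifs
    · positivity
    · exact le_rfl
  law e b := nu_law h2 h3 e b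

/-- **A5** -/
theorem gcube (_h1 : S_app) (h2 : S_rad) (h3 : S_beta) : S_gcube := fun _ =>
  ⟨good_cube, body_cube, ker_mu h2 h3, ker_nu h2 h3⟩

end Pool.Agent.TH541.LP931
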